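import Pool.Agent.H307Z.Piv.StepL
set_option autoImplicit false
set_option linter.unusedSectionVars false

/-!
# The steered Klee–Minty linear program
-/

namespace Pool.Agent.H307Z.Piv

open Finset Sum

/-- parameters of the construction -/
structure Par where
  k : ℕ
  r : ℕ
  T : ℕ
  t : ℕ
  μ : ℕ
  ρ : ℕ → ℕ
  hμ : μ ≤ T
  hk : 2 * (T + t) ≤ k
  hρ : ∀ σ, ρ σ < k

/-- the sign of a bit -/
def sg (b : Bool) : ℤ := if b then 1 else -1

lemma tele (f : ℕ → ℝ) (j : ℕ) : ∀ t, j ≤ t →
    ∑ h : Fin t, (if j ≤ h.val then f h - f (h + 1) else 0) = f j - f t := by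
  intro t ht
  rw [Fin.sum_univ_eq_sum_range (fun h => if j ≤ h then f h - f (h + 1) else 0)]
  induction t, ht using Nat.le_induction with
  | base =>
    rw [sub_self]
    exact sum_eq_zero fun h hh => if_neg (by simpa using hh)
  | succ t ht ih => rw [sum_range_succ, ih, if_pos ht]; ring

lemma cnt_sum {α β : Type} [Fintype α] [Fintype β] (P : α ⊕ β → Prop) [DecidablePred P] :
    (univ.filter P).card =
      (univ.filter fun a => P (inl a)).card + (univ.filter fun b => P (inr b)).card := by
  simp only [card_filter, Fintype.sum_sum_type]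

lemma cnt_lt {n a : ℕ} (h : a ≤ n) (P : Fin n → Prop) [DecidablePred P]
    (hP : ∀ i, P i ↔ i.val < a) : (univ.filter P).card = a := by
  rw [filter_congr fun i _ => hP i, Fin.card_filter_val_lt, min_eq_right h]

lemma cnt_ge {n a : ℕ} (h : a ≤ n) (P : Fin n → Prop) [DecidablePred P]
    (hP : ∀ i, P i ↔ a ≤ i.val) : (univ.filter P).card = n - a := by
  have h1 := card_filter_add_card_filter_not (s := (univ : Finset (Fin n))) P
  rw [cnt_lt h (fun i => ¬ P i) (fun i => by rw [hP]; omega), card_univ, Fintype.card_fin] at h1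
  omega

lemma cnt_none {α : Type} [Fintype α] (P : α → Prop) [DecidablePred P] (hP : ∀ i, ¬ P i) :
    (univ.filter P).card = 0 := by
  rw [card_eq_zero, filter_eq_empty_iff]
  exact fun i _ => hP i

namespace Par

variable (p : Par)

abbrev Dum := Fin p.k ⊕ Fin p.k ⊕ Fin p.r

abbrev Idx := p.Dum ⊕ (Fin p.t ⊕ Fin p.T ⊕ Fin p.t)

def small (σ : ℕ) : Prop := 2 * p.ρ σ ≤ p.k

instance (σ : ℕ) : Decidable (p.small σ) := by unfold small; infer_instance

def R (σ : ℕ) : ℕ := p.T - σ + p.t

def F (σ : ℕ) : ℕ := if p.small σ then p.ρ σ else p.ρ σ + 1 - p.R σ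

def G (σ : ℕ) : ℕ := p.k - p.F σ - p.R σ

def χ : p.Dum → ℕ → Bool
  | inl m, σ => decide (m.val < p.F σ)
  | inr (inl m), σ => decide (m.val < p.G σ)
  | inr (inr _), _ => false

def a : p.Idx → p.Idx → ℤ
  | inr (inr (inl τ)), inl d => sg (p.χ d (τ + 1)) - sg (p.χ d τ)
  | inr (inr (inr _)), inl d => sg (p.χ d p.T) - sg (p.χ d p.μ)
  | inr (inr (inr h)), inr (inl i) => if i.val ≤ h.val then 2 else 0
  | inr (inr (inr _)), inr (inr (inl τ)) => if τ.val < p.μ then 0 else -2
  | inr (inr (inr h)), inr (inr (inr i)) => if i.val < h.val then -2 else 0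
  | _, _ => 0

def c : p.Idx → ℤ
  | inl d => sg (p.χ d 0)
  | inr (inl _) => -1
  | inr (inr _) => 1

def lvl : p.Idx → ℕ
  | inl _ => 0
  | inr (inl _) => 0
  | inr (inr (inl _)) => 1
  | inr (inr (inr i)) => 2 + i.val

def W : ℕ := p.k + p.r + p.T + 2 * p.t + 1

def key : p.Idx → ℕ
  | inl (inl m) => m.val
  | inl (inr (inl m)) => 4 * p.W + m.val
  | inl (inr (inr m)) => 5 * p.W + m.val
  | inr (inl i) => if p.small p.T then 2 * p.W + p.t + i.val else 2 * p.W + i.val
  | inr (inr (inl τ)) => if p.small τ then p.W + τ.val else 3 * p.W + (p.T - τ.val)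
  | inr (inr (inr i)) => if p.small p.T then 2 * p.W + i.val else 2 * p.W + 2 * p.t - i.val

def β (e : ℕ → Bool) (σ : ℕ) : p.Idx → Bool
  | inl _ => false
  | inr (inl _) => false
  | inr (inr (inl τ)) => if τ.val < p.μ ∨ e 0 = true then decide (τ.val < σ) else decide (σ ≤ τ.val)
  | inr (inr (inr i)) => xor (e i) (e (i + 1))

def y (e : ℕ → Bool) (σ : ℕ) : p.Idx → ℝ
  | inl d => sg (p.χ d σ)
  | inr (inl i) => -sg (e i)
  | inr (inr (inl τ)) => if τ.val < p.μ then 1 else sg (e 0)
  | inr (inr (inr i)) => sg (e (i + 1))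

def imp (e : ℕ → Bool) (σ : ℕ) : p.Idx → Bool
  | inl d => p.χ d σ
  | inr (inl i) => !e i
  | inr (inr (inl τ)) => decide (σ ≤ τ.val)
  | inr (inr (inr i)) => e i

lemma ha (k i : p.Idx) (h : p.a k i ≠ 0) : p.lvl i < p.lvl k := by
  rcases k with k | k | k | k <;> rcases i with i | i | i | i <;>
    simp only [a, lvl, ne_eq, not_true_eq_false] at h ⊢ <;> omega

lemma abs_sg_sub (b b' : Bool) : |sg b - sg b'| ≤ 2 := by
  cases b <;> cases b' <;> simp [sg]

lemma hb (k i : p.Idx) : |p.a k i| ≤ 2 := by
  rcases k with k | k | k | k <;> rcases i with i | i | i | i <;>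
    simp only [a, abs_zero, Nat.ofNat_nonneg, abs_sg_sub] <;> split_ifs <;> simp

lemma hd (k : p.Idx) : p.a k k = 0 := by
  rcases k with k | k | k | k <;> simp [a]

lemma abs_c (i : p.Idx) : |p.c i| ≤ 1 := by
  rcases i with i | i | i <;> simp only [c]
  · cases p.χ i 0 <;> simp [sg]
  · simp
  · simp

lemma key_inj : Function.Injective p.key := by
  have hW : p.W = p.k + p.r + p.T + 2 * p.t + 1 := rfl
  rintro ((i | i | i) | i | i | i) ((j | j | j) | j | j | j) h <;>
    have hi := i.2 <;> have hj := j.2 <;> simp only [key] at h <;>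
    (try split_ifs at h) <;>
    first
      | omega
      | (have : i = j := Fin.ext (by omega); rw [this])

lemma himp (e : ℕ → Bool) (σ : ℕ) (i : p.Idx) :
    (if p.β e σ i then -p.y e σ i else p.y e σ i) = if p.imp e σ i then 1 else -1 := by
  rcases i with i | i | i | i <;> simp only [β, y, imp]
  · rcases Bool.eq_false_or_eq_true (p.χ i σ) with h | h <;> simp [sg, h]
  · rcases Bool.eq_false_or_eq_true (e i) with h | h <;> simp [sg, h]
  · by_cases h1 : i.val < p.μ <;> by_cases h2 : σ ≤ i.val <;> cases e 0 <;>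
      simp [sg, h1, h2, not_lt.2, not_le.1]
  · rcases Bool.eq_false_or_eq_true (e i) with h | h <;>
      rcases Bool.eq_false_or_eq_true (e (i + 1)) with h' | h' <;> simp [sg, h, h']

lemma hi_term (e : ℕ → Bool) (σ : ℕ) (h : Fin p.t) :
    (if p.β e σ (inr (inr (inr h))) then p.y e σ (inr (inr (inr h))) else 0) =
      -(1 / 2) * ((sg (e h) : ℝ) - sg (e (h + 1))) := by
  simp only [β, y]
  cases e h <;> cases e (h + 1) <;> simp [sg] <;> norm_num

lemma hi_sum (e : ℕ → Bool) (he : e p.t = true) (σ : ℕ) (j : ℕ) (hj : j ≤ p.t) (w : ℝ) :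
    ∑ h : Fin p.t, (if j ≤ h.val then w else 0) *
      (if p.β e σ (inr (inr (inr h))) then p.y e σ (inr (inr (inr h))) else 0) =
      -(w / 2) * ((sg (e j) : ℝ) - 1) := by
  have h1 := tele (fun h => (sg (e h) : ℝ)) j p.t hj
  simp only [he] at h1
  have h2 : ((sg true : ℤ) : ℝ) = 1 := by simp [sg]
  rw [h2] at h1
  rw [← h1, mul_sum]
  refine sum_congr rfl fun h _ => ?_
  rw [hi_term]
  split_ifs <;> ring

lemma sw_term (e : ℕ → Bool) (σ : ℕ) (τ : Fin p.T) :
    (if p.β e σ (inr (inr (inl τ))) then p.y e σ (inr (inr (inl τ))) else 0) =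
      1 - (if σ ≤ τ.val then 1 else 0) -
        (1 - (sg (e 0) : ℝ)) / 2 * (if p.μ ≤ τ.val then 1 else 0) := by
  simp only [β, y]
  by_cases h1 : τ.val < p.μ <;> by_cases h2 : σ ≤ τ.val <;> cases e 0 <;>
    simp [sg, h1, h2, not_lt.2, not_le.1, not_le.2, not_lt.1]

lemma hy (e : ℕ → Bool) (he : e p.t = true) (σ : ℕ) (hσ : σ ≤ p.T) (i : p.Idx) :
    p.y e σ i = p.c i + ∑ k, (p.a k i : ℝ) * (if p.β e σ k then p.y e σ k else 0) := by
  simp only [Fintype.sum_sum_type]
  rcases i with d | i | τ | i
  · have e1 := p.hi_sum e he σ 0 (Nat.zero_le _) ((sg (p.χ d p.T) : ℝ) - sg (p.χ d p.μ))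
    simp only [Nat.zero_le, if_true] at e1
    have t0 := tele (fun h => (sg (p.χ d h) : ℝ)) 0 p.T (Nat.zero_le _)
    have t1 := tele (fun h => (sg (p.χ d h) : ℝ)) σ p.T hσ
    have t2 := tele (fun h => (sg (p.χ d h) : ℝ)) p.μ p.T p.hμ
    simp only [Nat.zero_le, if_true] at t0
    have e2 : ∑ τ : Fin p.T, ((sg (p.χ d (τ + 1)) : ℝ) - sg (p.χ d τ)) *
        (if p.β e σ (inr (inr (inl τ))) then p.y e σ (inr (inr (inl τ))) else 0) =
        -((sg (p.χ d 0) : ℝ) - sg (p.χ d p.T)) + ((sg (p.χ d σ) : ℝ) - sg (p.χ d p.T)) +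
          (1 - (sg (e 0) : ℝ)) / 2 * ((sg (p.χ d p.μ) : ℝ) - sg (p.χ d p.T)) := by
      rw [← t0, ← t1, ← t2, mul_sum, ← sum_neg_distrib, ← sum_add_distrib, ← sum_add_distrib]
      refine sum_congr rfl fun τ _ => ?_
      rw [sw_term]
      split_ifs <;> ring
    simp only [a, c, Int.cast_zero, zero_mul, sum_const_zero, zero_add, Int.cast_sub]
    rw [e1, e2]
    simp only [y]
    ring
  · have e1 := p.hi_sum e he σ i i.2.le 2
    simp only [a, c, Int.cast_zero, zero_mul, sum_const_zero, zero_add, Int.cast_ite,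
      Int.cast_ofNat]
    rw [e1]
    simp only [y]
    push_cast
    ring
  · have e1 := p.hi_sum e he σ 0 (Nat.zero_le _) (-2)
    simp only [Nat.zero_le, if_true] at e1
    by_cases h : τ.val < p.μ
    · simp [a, c, y, h]
    · simp only [a, c, h, if_false, Int.cast_zero, zero_mul, sum_const_zero, zero_add,
        Int.cast_neg, Int.cast_ofNat]
      rw [e1]
      simp only [y, h, if_false]
      push_cast
      ring
  · have e1 := p.hi_sum e he σ (i + 1) i.2 (-2)
    simp only [a, c, Int.cast_zero, zero_mul, sum_const_zero, zero_add, Int.cast_ite,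
      Int.cast_neg, Int.cast_ofNat]
    simp only [Nat.succ_le_iff] at e1
    rw [e1]
    simp only [y]
    push_cast
    ring

lemma FG (σ : ℕ) : p.F σ + p.G σ + p.R σ = p.k ∧ (p.small σ → p.F σ = p.ρ σ) ∧
    (¬ p.small σ → p.F σ + p.R σ = p.ρ σ + 1) := by
  have h1 := p.hk
  have h2 := p.hρ σ
  unfold G F R
  by_cases h : p.small σ
  · simp only [h, if_true]
    unfold small at h
    refine ⟨by omega, fun _ => trivial, fun h => absurd trivial h⟩
  · simp only [h, if_false]
    unfold small at h
    refine ⟨by omega, fun h => h.elim, fun _ => by omega⟩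

lemma co_hi (e : ℕ → Bool) :
    (univ.filter fun i : Fin p.t => (!e i) = true).card +
      (univ.filter fun i : Fin p.t => e i = true).card = p.t := by
  have h1 := card_filter_add_card_filter_not (s := (univ : Finset (Fin p.t)))
    fun i : Fin p.t => e i = true
  rw [card_univ, Fintype.card_fin] at h1
  have : (univ.filter fun i : Fin p.t => (!e i) = true) =
      univ.filter fun i : Fin p.t => ¬ e i = true := filter_congr fun i _ => by simp
  rw [this]
  omega

lemma card_imp (e : ℕ → Bool) (σ : ℕ) (hσ : σ ≤ p.T) :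
    (univ.filter fun i => p.imp e σ i = true).card = p.k := by
  have h := (p.FG σ).1
  have h2 := p.co_hi e
  simp only [cnt_sum, imp, χ]
  rw [cnt_lt (a := p.F σ) (by omega) _ (fun i => by simp),
    cnt_lt (a := p.G σ) (by omega) _ (fun i => by simp),
    cnt_none _ (fun i => by simp), cnt_ge hσ _ (fun i => by simp)]
  unfold R at h
  omega

lemma rank_sw (e : ℕ → Bool) (σ : Fin p.T) :
    (univ.filter fun i => p.imp e σ i = true ∧ p.key i < p.key (inr (inr (inl σ)))).card =
      p.ρ σ := by
  obtain ⟨h, h3, h4⟩ := p.FG σ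
  have h2 := p.co_hi e
  have hW : p.W = p.k + p.r + p.T + 2 * p.t + 1 := rfl
  have hσ := σ.2
  simp only [cnt_sum, imp, χ, key]
  by_cases hs : p.small σ
  · simp only [hs, if_true]
    rw [cnt_lt (a := p.F σ) (by omega) _ (fun i => by
        have := i.2
        simp only [decide_eq_true_eq]
        omega),
      cnt_none _ (fun i => by omega), cnt_none _ (fun i => by simp),
      cnt_none _ (fun i => by split_ifs <;> omega),
      cnt_none _ (fun i => by
        simp only [decide_eq_true_eq]
        split_ifs <;> omega),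
      cnt_none _ (fun i => by
        have := i.2
        split_ifs <;> omega), h3 hs]
    rfl
  · simp only [hs, if_false]
    rw [cnt_lt (a := p.F σ) (by omega) _ (fun i => by
        have := i.2
        simp only [decide_eq_true_eq]
        omega),
      cnt_none _ (fun i => by omega), cnt_none _ (fun i => by simp),
      filter_congr (q := fun i : Fin p.t => (!e i) = true) (fun i _ => by
        have := i.2
        refine and_iff_left ?_
        split_ifs <;> omega),
      cnt_ge (a := σ + 1) hσ _ (fun i => by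
        have := i.2
        simp only [decide_eq_true_eq]
        by_cases h5 : i = σ
        · rw [h5, if_neg hs]; omega
        · have : i.val ≠ σ.val := fun h => h5 (Fin.ext h)
          split_ifs <;> omega),
      filter_congr (p := fun i : Fin p.t => e i = true ∧ _)
        (q := fun i : Fin p.t => e i = true) (fun i _ => by
        have := i.2
        refine and_iff_left ?_
        split_ifs <;> omega)]
    have := h4 hs
    unfold R at this
    omega

lemma rank_hi (e : ℕ → Bool) (z : Fin p.t) (hz : e z = true) (hlow : ∀ j < z.val, e j = false) :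
    (univ.filter fun i => p.imp e p.T i = true ∧ p.key i < p.key (inr (inr (inr z)))).card =
      p.ρ p.T := by
  obtain ⟨h, h3, h4⟩ := p.FG p.T
  have h2 := p.co_hi e
  have hW : p.W = p.k + p.r + p.T + 2 * p.t + 1 := rfl
  have hσ := z.2
  simp only [cnt_sum, imp, χ, key]
  by_cases hs : p.small p.T
  · simp only [hs, if_true]
    rw [cnt_lt (a := p.F p.T) (by omega) _ (fun i => by
        have := i.2
        simp only [decide_eq_true_eq]
        omega),
      cnt_none _ (fun i => by omega), cnt_none _ (fun i => by simp),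
      cnt_none _ (fun i => by omega),
      cnt_none _ (fun i => by
        have := i.2
        simp only [decide_eq_true_eq]
        omega),
      cnt_none _ (fun i => by
        rintro ⟨h5, h6⟩
        rw [hlow i (by omega)] at h5
        exact Bool.false_ne_true h5), h3 hs]
    rfl
  · simp only [hs, if_false]
    have h7 : (univ.filter fun i : Fin p.t => e i = true ∧
        2 * p.W + 2 * p.t - i.val < 2 * p.W + 2 * p.t - z.val).card + 1 =
        (univ.filter fun i : Fin p.t => e i = true).card := by
      rw [← card_erase_add_one (s := univ.filter fun i : Fin p.t => e i = true) (a := z)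
        (mem_filter.2 ⟨mem_univ _, hz⟩)]
      congr 2
      ext i
      have := i.2
      simp only [mem_filter, mem_univ, true_and, mem_erase]
      constructor
      · rintro ⟨h5, h6⟩
        exact ⟨fun h => by rw [h] at h6; omega, h5⟩
      · rintro ⟨h5, h6⟩
        refine ⟨h6, ?_⟩
        have h8 : i.val ≠ z.val := fun h => h5 (Fin.ext h)
        have h9 : ¬ i.val < z.val := fun h => by
          rw [hlow i h] at h6
          exact Bool.false_ne_true h6
        omega
    rw [cnt_lt (a := p.F p.T) (by omega) _ (fun i => by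
        have := i.2
        simp only [decide_eq_true_eq]
        omega),
      cnt_none _ (fun i => by omega), cnt_none _ (fun i => by simp),
      filter_congr (q := fun i : Fin p.t => (!e i) = true) (fun i _ => by
        have := i.2
        refine and_iff_left ?_
        omega),
      cnt_none (fun i : Fin p.T => _ ∧ _) (fun i => by
        have := i.2
        simp only [decide_eq_true_eq]
        omega)]
    have := h4 hs
    unfold R at this
    omega

lemma flip_sw (e : ℕ → Bool) (σ : Fin p.T) :
    flip (p.β e σ) (inr (inr (inl σ))) = p.β e (σ + 1) := by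
  funext i
  by_cases h : i = inr (inr (inl σ))
  · rw [h, flip_self]
    simp only [β]
    split_ifs <;> simp
  · rw [flip_ne _ h]
    rcases i with i | i | i | i <;> simp only [β]
    have : i.val ≠ σ.val := fun h' => h (by rw [Fin.ext h'])
    split_ifs
    · exact decide_eq_decide.2 (by omega)
    · exact decide_eq_decide.2 (by omega)

lemma flip_hi (e e' : ℕ → Bool) (z : Fin p.t)
    (h1 : ∀ j ≤ z.val, e' j = !e j) (h2 : ∀ j, z.val < j → e' j = e j) :
    flip (p.β e p.T) (inr (inr (inr z))) = p.β e' p.μ := by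
  funext i
  by_cases h : i = inr (inr (inr z))
  · rw [h, flip_self]
    simp only [β]
    rw [h1 z le_rfl, h2 _ (Nat.lt_succ_self _)]
    cases e z <;> cases e (z + 1) <;> rfl
  · rw [flip_ne _ h]
    rcases i with i | i | i | i <;> simp only [β]
    · have := i.2
      rw [h1 0 (Nat.zero_le _)]
      by_cases h3 : i.val < p.μ <;> cases e 0 <;> simp [h3, this, not_lt.1]
    · have : i.val ≠ z.val := fun h' => h (by rw [Fin.ext h'])
      rcases lt_or_gt_of_ne this with h3 | h3
      · rw [h1 i h3.le, h1 _ h3]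
        cases e i <;> cases e (i + 1) <;> rfl
      · rw [h2 i h3, h2 _ (by omega)]

end Par

end Pool.Agent.H307Z.Piv
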