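import Pool.Agent.H307Z.Piv.Defs
set_option autoImplicit false

/-!
# Triangular cubes as linear programs
-/

namespace Pool.Agent.H307Z.Piv

open Finset

/-- the data of a triangular cube -/
structure Tri (ι : Type) [Fintype ι] (m N : ℕ) where
  row : ι ≃ Fin m
  col : ι × Bool ≃ Fin N
  a : ι → ι → ℤ
  lvl : ι → ℕ
  c : ι → ℤ
  ha : ∀ k i, a k i ≠ 0 → lvl i < lvl k
  hb : ∀ k i, |a k i| ≤ 2
  hd : ∀ k, a k k = 0

namespace Tri

variable {ι : Type} [Fintype ι] [DecidableEq ι] {m N : ℕ} (T : Tri ι m N)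

def H (k : ι) : ℤ := (4 * (Fintype.card ι : ℤ) + 1) ^ T.lvl k

def A : Matrix (Fin m) (Fin N) ℤ := fun r j =>
  (if (T.col.symm j).1 = T.row.symm r then 1 else 0) -
    (if (T.col.symm j).2 then 0 else T.a (T.row.symm r) (T.col.symm j).1)

def b : Fin m → ℤ := fun r => T.H (T.row.symm r)

def C : Fin N → ℤ := fun j => if (T.col.symm j).2 then 0 else T.c (T.col.symm j).1

/-- the left-hand side of equation `k` -/
def lhs (z : Fin N → ℝ) (k : ι) : ℝ :=
  z (T.col (k, false)) + z (T.col (k, true)) - ∑ i, (T.a k i : ℝ) * z (T.col (i, false))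

lemma sum_col (f : Fin N → ℝ) :
    ∑ j, f j = ∑ i, f (T.col (i, false)) + ∑ i, f (T.col (i, true)) := by
  rw [← T.col.sum_comp, Fintype.sum_prod_type, ← sum_add_distrib]
  refine sum_congr rfl fun i _ => ?_
  rw [Fintype.sum_bool, add_comm]

lemma A_false (k i : ι) : (T.A (T.row k) (T.col (i, false)) : ℝ) =
    (if i = k then 1 else 0) - T.a k i := by
  simp [A]

lemma A_true (k i : ι) : (T.A (T.row k) (T.col (i, true)) : ℝ) = if i = k then 1 else 0 := by
  simp [A]

lemma row_sum (z : Fin N → ℝ) (k : ι) : ∑ j, (T.A (T.row k) j : ℝ) * z j = T.lhs z k := by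
  rw [T.sum_col]
  simp only [A_false, A_true, sub_mul, sum_sub_distrib, ite_mul, one_mul, zero_mul,
    sum_ite_eq', mem_univ, if_true, lhs]
  ring

lemma mem_feas (z : Fin N → ℝ) :
    z ∈ feas T.A T.b ↔ (∀ k, T.lhs z k = T.H k) ∧ ∀ j, 0 ≤ z j := by
  unfold feas
  simp only [Set.mem_setOf_eq]
  refine and_congr ?_ Iff.rfl
  constructor
  · intro h k
    have := h (T.row k)
    rw [T.row_sum] at this
    simpa [b] using this
  · intro h r
    obtain ⟨k, rfl⟩ := T.row.surjective r
    rw [T.row_sum, h k]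
    simp [b]

lemma lhs_comb (z w : Fin N → ℝ) (s t : ℝ) (k : ι) :
    T.lhs (s • z + t • w) k = s * T.lhs z k + t * T.lhs w k := by
  simp only [lhs, Pi.add_apply, Pi.smul_apply, smul_eq_mul, mul_add, sum_add_distrib, mul_sub,
    mul_sum]
  have e1 : ∑ i, (T.a k i : ℝ) * (s * z (T.col (i, false))) =
      ∑ i, s * ((T.a k i : ℝ) * z (T.col (i, false))) := sum_congr rfl fun i _ => by ring
  have e2 : ∑ i, (T.a k i : ℝ) * (t * w (T.col (i, false))) =
      ∑ i, t * ((T.a k i : ℝ) * w (T.col (i, false))) := sum_congr rfl fun i _ => by ring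
  rw [e1, e2]
  ring

/-- a point of the affine hull is determined by its nonbasic coordinates -/
lemma uniq (β : ι → Bool) (z w : Fin N → ℝ) (h : ∀ k, T.lhs z k = T.lhs w k)
    (hn : ∀ i, z (T.col (i, β i)) = w (T.col (i, β i))) : z = w := by
  have key : ∀ L k, T.lvl k = L → z (T.col (k, false)) = w (T.col (k, false)) ∧
      z (T.col (k, true)) = w (T.col (k, true)) := by
    intro L
    induction L using Nat.strong_induction_on with
    | _ L ih =>
      intro k hk
      have e : ∑ i, (T.a k i : ℝ) * z (T.col (i, false)) =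
          ∑ i, (T.a k i : ℝ) * w (T.col (i, false)) := by
        refine sum_congr rfl fun i _ => ?_
        by_cases hi : T.a k i = 0
        · simp [hi]
        · rw [(ih _ (hk ▸ T.ha k i hi) i rfl).1]
      have h1 := h k
      unfold lhs at h1
      rw [e] at h1
      have h2 := hn k
      cases hb : β k
      · rw [hb] at h2; constructor <;> linarith
      · rw [hb] at h2; constructor <;> linarith
  funext j
  obtain ⟨⟨k, bb⟩, rfl⟩ := T.col.surjective j
  cases bb
  · exact (key _ k rfl).1
  · exact (key _ k rfl).2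

/-- the upper bound for the coordinate `k` -/
def u (x : ι → ℝ) (k : ι) : ℝ := T.H k + ∑ i, (T.a k i : ℝ) * x i

lemma H_pos (k : ι) : (0 : ℝ) < T.H k := by
  unfold H
  push_cast
  positivity

lemma u_bound (x : ι → ℝ) (hx : ∀ k, 0 < T.u x k → 0 ≤ x k ∧ x k ≤ T.u x k) (k : ι) :
    0 < T.u x k ∧ T.u x k < 2 * T.H k := by
  have key : ∀ L k, T.lvl k = L → 0 < T.u x k ∧ T.u x k < 2 * T.H k := by
    intro L
    induction L using Nat.strong_induction_on with
    | _ L ih =>
      intro k hk
      set D : ℝ := 4 * (Fintype.card ι : ℝ) + 1 with hD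
      have hD0 : 0 < D := by positivity
      have hD1 : 1 ≤ D := by
        have : (0 : ℝ) ≤ Fintype.card ι := by positivity
        linarith
      have hterm : ∀ i, D * |(T.a k i : ℝ) * x i| ≤ 4 * T.H k := by
        intro i
        by_cases hi : T.a k i = 0
        · simp only [hi, Int.cast_zero, zero_mul, abs_zero, mul_zero]
          have := T.H_pos k
          linarith
        · have hl := T.ha k i hi
          obtain ⟨h1, h2⟩ := ih _ (hk ▸ hl) i rfl
          obtain ⟨h3, h4⟩ := hx i h1
          have h5 : |(T.a k i : ℝ)| ≤ 2 := by exact_mod_cast T.hb k i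
          have h6 : D * T.H i ≤ T.H k := by
            unfold H
            push_cast
            rw [← hD, ← pow_succ']
            exact pow_le_pow_right₀ hD1 hl
          rw [abs_mul, abs_of_nonneg h3]
          have h7 : |(T.a k i : ℝ)| * x i ≤ 2 * (2 * T.H i) := by
            apply mul_le_mul h5 (by linarith) h3 (by norm_num)
          calc D * (|(T.a k i : ℝ)| * x i) ≤ D * (2 * (2 * T.H i)) := by gcongr
            _ = 4 * (D * T.H i) := by ring
            _ ≤ 4 * T.H k := by gcongr
      have hsum : D * |∑ i, (T.a k i : ℝ) * x i| ≤ Fintype.card ι * (4 * T.H k) := by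
        calc D * |∑ i, (T.a k i : ℝ) * x i| ≤ D * ∑ i, |(T.a k i : ℝ) * x i| := by
              gcongr
              exact abs_sum_le_sum_abs _ _
          _ = ∑ i, D * |(T.a k i : ℝ) * x i| := by rw [mul_sum]
          _ ≤ ∑ _i : ι, 4 * (T.H k : ℝ) := sum_le_sum fun i _ => hterm i
          _ = _ := by rw [sum_const, card_univ, nsmul_eq_mul]
      have hH := T.H_pos k
      have hlt : |∑ i, (T.a k i : ℝ) * x i| < T.H k := by
        by_contra hcon
        push Not at hcon
        have : D * T.H k ≤ D * |∑ i, (T.a k i : ℝ) * x i| := by gcongr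
        have h9 : D * T.H k = Fintype.card ι * (4 * T.H k) + T.H k := by rw [hD]; ring
        linarith
      obtain ⟨h10, h11⟩ := abs_lt.1 hlt
      unfold u
      constructor <;> linarith
  exact key _ k rfl

lemma feas_u {z : Fin N → ℝ} (hz : z ∈ feas T.A T.b) (k : ι) :
    T.u (fun i => z (T.col (i, false))) k = z (T.col (k, false)) + z (T.col (k, true)) := by
  have := ((T.mem_feas z).1 hz).1 k
  unfold lhs at this
  unfold u
  linarith

lemma feas_bound {z : Fin N → ℝ} (hz : z ∈ feas T.A T.b) (k : ι) :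
    0 < z (T.col (k, false)) + z (T.col (k, true)) ∧
      z (T.col (k, false)) + z (T.col (k, true)) < 2 * T.H k := by
  rw [← T.feas_u hz]
  apply T.u_bound
  intro i _
  have h0 := ((T.mem_feas z).1 hz).2
  rw [T.feas_u hz]
  exact ⟨h0 _, by linarith [h0 (T.col (i, true))]⟩

lemma exists_x (β : ι → Bool) : ∃ x : ι → ℝ, ∀ k, x k = if β k then T.u x k else 0 := by
  have key : ∀ L : ℕ, ∃ x : ι → ℝ, ∀ k, T.lvl k < L → x k = if β k then T.u x k else 0 := by
    intro L
    induction L with
    | zero => exact ⟨0, fun k hk => absurd hk (Nat.not_lt_zero _)⟩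
    | succ L ih =>
      obtain ⟨x, hx⟩ := ih
      refine ⟨fun k => if β k then T.u x k else 0, fun k hk => ?_⟩
      have : T.u (fun k => if β k then T.u x k else 0) k = T.u x k := by
        unfold u
        congr 1
        refine sum_congr rfl fun i _ => ?_
        by_cases hi : T.a k i = 0
        · simp [hi]
        · have := T.ha k i hi
          rw [hx i (by omega)]
          rfl
      simp only [this]
  obtain ⟨x, hx⟩ := key (univ.sup T.lvl + 1)
  exact ⟨x, fun k => hx k (Nat.lt_succ_of_le (le_sup (f := T.lvl) (mem_univ k)))⟩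

lemma exists_V (β : ι → Bool) : ∃ v : Fin N → ℝ, v ∈ feas T.A T.b ∧
    (∀ i, v (T.col (i, β i)) = 0) ∧ ∀ i, 0 < v (T.col (i, !β i)) := by
  obtain ⟨x, hx⟩ := T.exists_x β
  have hu : ∀ k, 0 < T.u x k := by
    intro k
    refine (T.u_bound x ?_ k).1
    intro i hi
    rw [hx i]
    split_ifs
    · exact ⟨hi.le, le_rfl⟩
    · exact ⟨le_rfl, hi.le⟩
  set v : Fin N → ℝ := fun j =>
    if (T.col.symm j).2 then T.u x (T.col.symm j).1 - x (T.col.symm j).1 else x (T.col.symm j).1
    with hv
  have v0 : ∀ i, v (T.col (i, false)) = x i := fun i => by simp [hv]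
  have v1 : ∀ i, v (T.col (i, true)) = T.u x i - x i := fun i => by simp [hv]
  have hz : ∀ i, v (T.col (i, β i)) = 0 := by
    intro i
    have := hx i
    cases hb : β i
    · rw [v0, this, hb]; simp
    · rw [v1]; rw [hb] at this; simp only [if_true] at this; linarith
  have hp : ∀ i, 0 < v (T.col (i, !β i)) := by
    intro i
    have := hx i
    have h2 := hu i
    cases hb : β i
    · rw [hb] at this
      simp only [Bool.not_false, v1]
      simp only [Bool.false_eq_true, if_false] at this
      linarith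
    · rw [hb] at this
      simp only [Bool.not_true, v0]
      simp only [if_true] at this
      linarith
  refine ⟨v, (T.mem_feas v).2 ⟨fun k => ?_, fun j => ?_⟩, hz, hp⟩
  · unfold lhs
    simp only [v0, v1]
    unfold u
    ring
  · obtain ⟨⟨k, bb⟩, rfl⟩ := T.col.surjective j
    by_cases h : bb = β k
    · rw [h, hz]
    · have : bb = !β k := by
        revert h
        cases bb <;> cases β k <;> simp
      rw [this]
      exact (hp k).le

/-- the vertex with the bits `β` -/
noncomputable def V (β : ι → Bool) : Fin N → ℝ := (T.exists_V β).choose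

lemma V_mem (β : ι → Bool) : T.V β ∈ feas T.A T.b := (T.exists_V β).choose_spec.1

lemma V_zero (β : ι → Bool) (i : ι) : T.V β (T.col (i, β i)) = 0 :=
  (T.exists_V β).choose_spec.2.1 i

lemma V_pos (β : ι → Bool) (i : ι) : 0 < T.V β (T.col (i, !β i)) :=
  (T.exists_V β).choose_spec.2.2 i

lemma V_lhs (β : ι → Bool) (k : ι) : T.lhs (T.V β) k = T.H k :=
  ((T.mem_feas _).1 (T.V_mem β)).1 k

lemma V_nonneg (β : ι → Bool) (j : Fin N) : 0 ≤ T.V β j :=
  ((T.mem_feas _).1 (T.V_mem β)).2 j

lemma col_cases (β : ι → Bool) (j : Fin N) :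
    (∃ i, j = T.col (i, β i)) ∨ ∃ i, j = T.col (i, !β i) := by
  obtain ⟨⟨k, bb⟩, rfl⟩ := T.col.surjective j
  by_cases h : bb = β k
  · exact Or.inl ⟨k, by rw [h]⟩
  · refine Or.inr ⟨k, ?_⟩
    have : bb = !β k := by
      revert h
      cases bb <;> cases β k <;> simp
    rw [this]

lemma eq_V (β : ι → Bool) {z : Fin N → ℝ} (hz : z ∈ feas T.A T.b)
    (h : ∀ i, z (T.col (i, β i)) = 0) : z = T.V β :=
  T.uniq β _ _ (fun k => by rw [((T.mem_feas z).1 hz).1 k, T.V_lhs])
    fun i => by rw [h i, T.V_zero]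

end Tri

end Pool.Agent.H307Z.Piv
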