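import Mathlib
set_option autoImplicit false

/-!
# The simplex method with a finite-memory rank rule: definitions
-/

namespace Pool.Agent.H307Z.Piv

open Finset

variable {m N M : ℕ}

/-- the feasible region `{z : A z = b, z ≥ 0}` of a linear program in standard form -/
def feas (A : Matrix (Fin m) (Fin N) ℤ) (b : Fin m → ℤ) : Set (Fin N → ℝ) :=
  {z | (∀ i, ∑ j, (A i j : ℝ) * z j = b i) ∧ ∀ j, 0 ≤ z j}

/-- the objective value -/
def obj (c : Fin N → ℤ) (z : Fin N → ℝ) : ℝ := ∑ j, (c j : ℝ) * z j

/-- `v` and `w` are the two ends of an edge (a one-dimensional face) of `P` -/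
def IsEdge (P : Set (Fin N → ℝ)) (v w : Fin N → ℝ) : Prop :=
  v ≠ w ∧ IsExtreme ℝ P (segment ℝ v w)

/-- `r = c - Aᵀ π` is a vector of reduced costs at the point `v`: it vanishes on the support
of `v` -/
def IsRedCost (A : Matrix (Fin m) (Fin N) ℤ) (c : Fin N → ℤ) (v r : Fin N → ℝ) : Prop :=
  (∃ π : Fin m → ℝ, ∀ j, r j = c j - ∑ i, π i * A i j) ∧ ∀ j, v j ≠ 0 → r j = 0

/-- the improving variables: those with positive reduced cost -/
noncomputable def impr (r : Fin N → ℝ) : Finset (Fin N) := univ.filter fun j => 0 < r j

/-- what the rule sees: the positive reduced costs, listed in the order of the indices -/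
noncomputable def view (r : Fin N → ℝ) : List ℝ := ((impr r).sort (· ≤ ·)).map r

/-- a pivot rule with `M` memory states; from its state and the list of positive reduced costs
it picks a position in that list and a new state -/
structure Rule (M : ℕ) where
  init : Fin M
  pick : Fin M → List ℝ → ℕ
  next : Fin M → List ℝ → Fin M
  pick_lt : ∀ s l, l ≠ [] → pick s l < l.length

/-- one pivot of the simplex method with the rule `R`, from the point `v` in state `s` to the
point `w` in state `s'`: the improving variable `j` at the position picked by the rule enters,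
that is, `w` is the other end of an edge at `v` on which `z j` becomes positive -/
def Step (R : Rule M) (A : Matrix (Fin m) (Fin N) ℤ) (b : Fin m → ℤ) (c : Fin N → ℤ)
    (v : Fin N → ℝ) (s : Fin M) (w : Fin N → ℝ) (s' : Fin M) : Prop :=
  ∃ r, IsRedCost A c v r ∧ ∃ j ∈ impr r,
    ((impr r).filter (· < j)).card = R.pick s (view r) ∧
    IsEdge (feas A b) v w ∧ 0 < w j ∧ s' = R.next s (view r)

end Pool.Agent.H307Z.Piv
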