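import Pool.Agent.H307Z.Piv.Cube
set_option autoImplicit false
set_option linter.unusedSectionVars false

/-!
# Vertices, edges and reduced costs of triangular cubes
-/

namespace Pool.Agent.H307Z.Piv

open Finset

lemma face_extreme {N : ℕ} {P : Set (Fin N → ℝ)} (hP : ∀ z ∈ P, ∀ j, 0 ≤ z j)
    (Z : Set (Fin N)) : IsExtreme ℝ P {z | z ∈ P ∧ ∀ j ∈ Z, z j = 0} := by
  refine ⟨fun z hz => hz.1, ?_⟩
  rintro x hx y hy z ⟨_, hz⟩ ⟨s, t, hs, ht, hst, rfl⟩
  refine ⟨hx, fun j hj => ?_⟩
  have h1 := hz j hj
  simp only [Pi.add_apply, Pi.smul_apply, smul_eq_mul] at h1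
  have h2 := hP x hx j
  have h3 := hP y hy j
  have h4 : 0 ≤ t * y j := by positivity
  have h5 : s * x j ≤ 0 := by linarith
  by_contra hne
  have : 0 < s * x j := mul_pos hs (lt_of_le_of_ne h2 (Ne.symm hne))
  linarith

/-- change of one bit -/
def flip {ι : Type} [DecidableEq ι] (β : ι → Bool) (i : ι) : ι → Bool :=
  Function.update β i (!β i)

lemma flip_self {ι : Type} [DecidableEq ι] (β : ι → Bool) (i : ι) : flip β i i = !β i := by
  simp [flip]

lemma flip_ne {ι : Type} [DecidableEq ι] (β : ι → Bool) {i k : ι} (h : k ≠ i) :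
    flip β i k = β k := by
  simp [flip, h]

namespace Tri

variable {ι : Type} [Fintype ι] [DecidableEq ι] {m N : ℕ} (T : Tri ι m N)

lemma feas_nonneg : ∀ z ∈ feas T.A T.b, ∀ j, 0 ≤ z j := fun z hz => ((T.mem_feas z).1 hz).2

lemma V_extreme (β : ι → Bool) : T.V β ∈ (feas T.A T.b).extremePoints ℝ := by
  rw [← isExtreme_singleton]
  have h := face_extreme T.feas_nonneg (Set.range fun i => T.col (i, β i))
  convert h using 1
  ext z
  simp only [Set.mem_singleton_iff, Set.mem_ofPred_eq, Set.mem_range, forall_exists_index,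
    forall_apply_eq_imp_iff]
  constructor
  · rintro rfl
    exact ⟨T.V_mem β, T.V_zero β⟩
  · rintro ⟨h1, h2⟩
    exact T.eq_V β h1 h2

lemma Vf_pos (β : ι → Bool) (i : ι) : 0 < T.V (flip β i) (T.col (i, β i)) := by
  have := T.V_pos (flip β i) i
  rwa [flip_self, Bool.not_not] at this

lemma Vf_zero (β : ι → Bool) (i : ι) : T.V (flip β i) (T.col (i, !β i)) = 0 := by
  have := T.V_zero (flip β i) i
  rwa [flip_self] at this

lemma Vf_zero' (β : ι → Bool) {i k : ι} (h : k ≠ i) : T.V (flip β i) (T.col (k, β k)) = 0 := by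
  have := T.V_zero (flip β i) k
  rwa [flip_ne β h] at this

lemma comb_mem {z w : Fin N → ℝ} (hz : ∀ k, T.lhs z k = T.H k) (hw : ∀ k, T.lhs w k = T.H k)
    {s t : ℝ} (hst : s + t = 1) (k : ι) : T.lhs (s • z + t • w) k = T.H k := by
  rw [T.lhs_comb, hz, hw, ← add_mul, hst, one_mul]

/-- points with one free nonbasic coordinate -/
lemma mem_segment (β : ι → Bool) (i : ι) {z : Fin N → ℝ} (hz : z ∈ feas T.A T.b)
    (h : ∀ k, k ≠ i → z (T.col (k, β k)) = 0) : z ∈ segment ℝ (T.V β) (T.V (flip β i)) := by
  have hp := T.Vf_pos β i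
  set θ : ℝ := z (T.col (i, β i)) / T.V (flip β i) (T.col (i, β i)) with hθ
  have h0 : 0 ≤ θ := div_nonneg (T.feas_nonneg z hz _) hp.le
  have he : z = (1 - θ) • T.V β + θ • T.V (flip β i) := by
    apply T.uniq β
    · intro k
      rw [((T.mem_feas z).1 hz).1 k, T.comb_mem (T.V_lhs _) (T.V_lhs _) (by ring)]
    · intro k
      simp only [Pi.add_apply, Pi.smul_apply, smul_eq_mul, T.V_zero]
      by_cases hk : k = i
      · subst hk
        rw [hθ]
        field_simp
        ring
      · rw [h k hk, T.Vf_zero' β hk]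
        ring
  have h1 : 0 ≤ 1 - θ := by
    have h2 := T.feas_nonneg z hz (T.col (i, !β i))
    rw [he] at h2
    simp only [Pi.add_apply, Pi.smul_apply, smul_eq_mul, T.Vf_zero, mul_zero, add_zero] at h2
    exact nonneg_of_mul_nonneg_left h2 (T.V_pos β i)
  exact ⟨1 - θ, θ, h1, h0, by ring, he.symm⟩

lemma isEdge_V (β : ι → Bool) (i : ι) : IsEdge (feas T.A T.b) (T.V β) (T.V (flip β i)) := by
  constructor
  · intro h
    have h1 := T.Vf_pos β i
    rw [← h, T.V_zero] at h1
    exact lt_irrefl _ h1
  · have h := face_extreme T.feas_nonneg {j | ∃ k, k ≠ i ∧ j = T.col (k, β k)}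
    convert h using 1
    ext z
    constructor
    · rintro ⟨s, t, hs, ht, hst, rfl⟩
      refine ⟨(T.mem_feas _).2 ⟨T.comb_mem (T.V_lhs _) (T.V_lhs _) hst, fun j => ?_⟩, ?_⟩
      · simp only [Pi.add_apply, Pi.smul_apply, smul_eq_mul]
        have := T.V_nonneg β j
        have := T.V_nonneg (flip β i) j
        positivity
      · rintro j ⟨k, hk, rfl⟩
        simp only [Pi.add_apply, Pi.smul_apply, smul_eq_mul, T.V_zero, T.Vf_zero' β hk]
        ring
    · rintro ⟨h1, h2⟩
      exact T.mem_segment β i h1 fun k hk => h2 _ ⟨k, hk, rfl⟩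

lemma exists_small {κ : Type} [Fintype κ] (p q : κ → ℝ) (hp : ∀ j, 0 < p j) :
    ∃ ε : ℝ, 0 < ε ∧ ∀ j, ε * |q j| < p j := by
  have h : ∀ j, ∀ᶠ ε in nhdsWithin (0 : ℝ) (Set.Ioi 0), ε * |q j| < p j := by
    intro j
    apply Filter.Eventually.filter_mono nhdsWithin_le_nhds
    have hc : Continuous fun ε : ℝ => ε * |q j| := by fun_prop
    apply hc.continuousAt.eventually_lt continuousAt_const
    simpa using hp j
  have h2 := (Filter.eventually_all.2 h).and self_mem_nhdsWithin
  obtain ⟨ε, h3, h4⟩ := h2.exists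
  exact ⟨ε, h4, h3⟩

/-- an edge at a vertex on which a given nonbasic variable enters is the expected one -/
lemma edge_eq (β : ι → Bool) (i : ι) {w : Fin N → ℝ} (he : IsEdge (feas T.A T.b) (T.V β) w)
    (hw : 0 < w (T.col (i, β i))) : w = T.V (flip β i) := by
  obtain ⟨-, hext⟩ := he
  have hwP : w ∈ feas T.A T.b := hext.subset (right_mem_segment ℝ _ _)
  set v := T.V β with hv
  set v' := T.V (flip β i) with hv'
  have hp : 0 < v' (T.col (i, β i)) := T.Vf_pos β i
  set κ : ℝ := w (T.col (i, β i)) / v' (T.col (i, β i)) with hκ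
  have hκ0 : 0 < κ := div_pos hw hp
  -- a small parameter
  obtain ⟨ε, hε, hs⟩ := exists_small (κ := Option (Option ι))
    (fun o => match o with
      | none => 1
      | some none => 1
      | some (some k) => v (T.col (k, !β k)))
    (fun o => match o with
      | none => 1
      | some none => κ
      | some (some k) => v (T.col (k, !β k)) + κ * v' (T.col (k, !β k)))
    (by
      rintro (_ | _ | k)
      · exact one_pos
      · exact one_pos
      · exact T.V_pos β k)
  have hε1 : ε < 1 := by simpa using hs none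
  have hε2 : ε * κ < 1 := by
    have := hs (some none)
    simp only at this
    rwa [abs_of_pos hκ0] at this
  set lam : ℝ := ε * κ with hlam
  have hlam0 : 0 < lam := mul_pos hε hκ0
  have hl1 : 0 < 1 - lam := by linarith
  set uu : Fin N → ℝ := (1 - ε) • v + ε • w with huu
  set qq : Fin N → ℝ := (1 / (1 - lam)) • uu + (-lam / (1 - lam)) • v' with hqq
  have huP : ∀ k, T.lhs uu k = T.H k :=
    T.comb_mem (T.V_lhs _) ((T.mem_feas w).1 hwP).1 (by ring)
  have hqP : qq ∈ feas T.A T.b := by
    refine (T.mem_feas _).2 ⟨T.comb_mem huP (T.V_lhs _) (by field_simp; ring), fun j => ?_⟩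
    have e : qq j = ((1 - ε) * v j + ε * w j - lam * v' j) / (1 - lam) := by
      simp only [hqq, huu, Pi.add_apply, Pi.smul_apply, smul_eq_mul]
      field_simp
      ring
    rw [e]
    apply div_nonneg _ hl1.le
    have hwj := T.feas_nonneg w hwP j
    rcases T.col_cases β j with ⟨k, rfl⟩ | ⟨k, rfl⟩
    · rw [hv, T.V_zero]
      by_cases hk : k = i
      · subst hk
        have : lam * v' (T.col (k, β k)) = ε * w (T.col (k, β k)) := by
          rw [hlam, hκ]
          field_simp
        linarith
      · rw [hv', T.Vf_zero' β hk]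
        have := mul_nonneg hε.le hwj
        linarith
    · have h1 := hs (some (some k))
      simp only at h1
      have h2 := le_abs_self (v (T.col (k, !β k)) + κ * v' (T.col (k, !β k)))
      have h3 := mul_le_mul_of_nonneg_left h2 hε.le
      have h4 := mul_nonneg hε.le hwj
      rw [hlam]
      nlinarith
  have hmem : v' ∈ segment ℝ v w := by
    refine hext.left_mem_of_mem_openSegment (T.V_mem _) hqP (z := uu)
      ⟨1 - ε, ε, by linarith, hε.le, by ring, rfl⟩ ⟨lam, 1 - lam, hlam0, hl1, by ring, ?_⟩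
    funext j
    simp only [hqq, Pi.add_apply, Pi.smul_apply, smul_eq_mul]
    field_simp
    ring
  obtain ⟨s, t, hs0, ht0, hst, hcomb⟩ := hmem
  have hti : v' (T.col (i, β i)) = t * w (T.col (i, β i)) := by
    rw [← hcomb]
    simp only [Pi.add_apply, Pi.smul_apply, smul_eq_mul]
    rw [hv, T.V_zero]
    ring
  have htpos : 0 < t := by
    rcases ht0.lt_or_eq with h | h
    · exact h
    · rw [← h, zero_mul] at hti
      linarith
  have hwk : ∀ k, k ≠ i → w (T.col (k, β k)) = 0 := by
    intro k hk
    have h1 : v' (T.col (k, β k)) = t * w (T.col (k, β k)) := by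
      rw [← hcomb]
      simp only [Pi.add_apply, Pi.smul_apply, smul_eq_mul]
      rw [hv, T.V_zero]
      ring
    rw [hv', T.Vf_zero' β hk] at h1
    rcases mul_eq_zero.1 h1.symm with h | h
    · linarith
    · exact h
  obtain ⟨s', t', hs', ht', hst', hcomb'⟩ := T.mem_segment β i hwP hwk
  have hti' : w (T.col (i, β i)) = t' * v' (T.col (i, β i)) := by
    rw [← hcomb']
    simp only [Pi.add_apply, Pi.smul_apply, smul_eq_mul]
    rw [T.V_zero]
    ring
  have h1 : t' * t = 1 := by
    have : w (T.col (i, β i)) * (t' * t) = w (T.col (i, β i)) * 1 := by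
      rw [hti] at hti'
      linarith
    exact mul_left_cancel₀ hw.ne' this
  have h2 : t' = 1 := by nlinarith
  have h3 : s' = 0 := by linarith
  rw [← hcomb', h2, h3, zero_smul, one_smul, zero_add]

/-- every vertex is one of the cube vertices -/
lemma extreme_eq {z : Fin N → ℝ} (hz : z ∈ (feas T.A T.b).extremePoints ℝ) :
    ∃ β, z = T.V β := by
  classical
  have hzP := hz.1
  set β : ι → Bool := fun k => decide (z (T.col (k, true)) = 0) with hβ
  have hbas : ∀ k, 0 < z (T.col (k, !β k)) := by
    intro k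
    have h1 := (T.feas_bound hzP k).1
    have h2 := T.feas_nonneg z hzP (T.col (k, true))
    by_cases h : z (T.col (k, true)) = 0
    · have : β k = true := by simp [hβ, h]
      rw [this]
      simp only [Bool.not_true]
      linarith
    · have : β k = false := by simp [hβ, h]
      rw [this]
      simp only [Bool.not_false]
      exact lt_of_le_of_ne h2 (Ne.symm h)
  refine ⟨β, T.eq_V β hzP fun i => ?_⟩
  by_contra hne
  have hi : 0 < z (T.col (i, β i)) := lt_of_le_of_ne (T.feas_nonneg z hzP _) (Ne.symm hne)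
  set η : Fin N → ℝ := (1 : ℝ) • T.V (flip β i) + (-1 : ℝ) • T.V β with hη
  have hηl : ∀ k, T.lhs η k = 0 := by
    intro k
    rw [hη, T.lhs_comb, T.V_lhs, T.V_lhs]
    ring
  obtain ⟨ε, hε, hs⟩ := exists_small (κ := Option ι)
    (fun o => match o with
      | none => z (T.col (i, β i))
      | some k => z (T.col (k, !β k)))
    (fun o => match o with
      | none => η (T.col (i, β i))
      | some k => η (T.col (k, !β k)))
    (by
      rintro (_ | k)
      · exact hi
      · exact hbas k)
  have hmem : ∀ δ : ℝ, |δ| ≤ ε → (1 : ℝ) • z + δ • η ∈ feas T.A T.b := by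
    intro δ hδ
    refine (T.mem_feas _).2 ⟨fun k => ?_, fun j => ?_⟩
    · rw [T.lhs_comb, hηl, ((T.mem_feas z).1 hzP).1 k]
      ring
    · simp only [Pi.add_apply, Pi.smul_apply, smul_eq_mul, one_mul]
      have hgen : ε * |η j| < z j → 0 ≤ z j + δ * η j := by
        intro h
        have h1 : |δ * η j| ≤ ε * |η j| := by
          rw [abs_mul]
          gcongr
        have h2 := neg_abs_le (δ * η j)
        linarith
      rcases T.col_cases β j with ⟨k, rfl⟩ | ⟨k, rfl⟩
      · by_cases hk : k = i
        · subst hk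
          exact hgen (hs none)
        · have : η (T.col (k, β k)) = 0 := by
            simp only [hη, Pi.add_apply, Pi.smul_apply, smul_eq_mul, T.V_zero,
              T.Vf_zero' β hk]
            ring
          rw [this, mul_zero, add_zero]
          exact T.feas_nonneg z hzP _
      · exact hgen (hs (some k))
  have h1 := hz.2 (hmem ε (by rw [abs_of_pos hε])) (hmem (-ε) (by rw [abs_neg, abs_of_pos hε]))
    ⟨1 / 2, 1 / 2, by norm_num, by norm_num, by norm_num, by
      funext j
      simp only [Pi.add_apply, Pi.smul_apply, smul_eq_mul]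
      ring⟩
  have h2 := congrFun h1 (T.col (i, β i))
  simp only [hη, Pi.add_apply, Pi.smul_apply, smul_eq_mul, T.V_zero] at h2
  have h3 := T.Vf_pos β i
  have h4 := mul_pos hε h3
  nlinarith

lemma card_support (β : ι → Bool) :
    (univ.filter fun j => T.V β j ≠ 0).card = Fintype.card ι := by
  symm
  rw [← card_univ]
  apply card_bij (fun i _ => T.col (i, !β i))
  · intro i _
    simp only [mem_filter, mem_univ, true_and]
    exact (T.V_pos β i).ne'
  · intro i _ k _ h
    have := T.col.injective h
    exact (Prod.ext_iff.1 this).1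
  · intro j hj
    simp only [mem_filter, mem_univ, true_and] at hj
    rcases T.col_cases β j with ⟨k, rfl⟩ | ⟨k, rfl⟩
    · exact absurd (T.V_zero β k) hj
    · exact ⟨k, mem_univ _, rfl⟩

lemma rows_indep : LinearIndependent ℝ fun r : Fin m => fun j : Fin N => (T.A r j : ℝ) := by
  rw [Fintype.linearIndependent_iff]
  intro g hg r
  obtain ⟨k, rfl⟩ := T.row.surjective r
  have h := congrFun hg (T.col (k, true))
  simp only [Finset.sum_apply, Pi.smul_apply, smul_eq_mul, Pi.zero_apply] at h
  rw [← T.row.sum_comp] at h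
  simpa [A_true] using h

lemma bounded : Bornology.IsBounded (feas T.A T.b) := by
  rw [isBounded_iff_forall_norm_le]
  refine ⟨∑ k, 2 * (T.H k : ℝ), fun z hz => ?_⟩
  have hs : 0 ≤ ∑ k, 2 * (T.H k : ℝ) := sum_nonneg fun k _ => by linarith [T.H_pos k]
  rw [pi_norm_le_iff_of_nonneg hs]
  intro j
  obtain ⟨⟨k, bb⟩, rfl⟩ := T.col.surjective j
  have h1 := (T.feas_bound hz k).2
  have h2 := T.feas_nonneg z hz (T.col (k, false))
  have h3 := T.feas_nonneg z hz (T.col (k, true))
  have h4 : 2 * (T.H k : ℝ) ≤ ∑ k, 2 * (T.H k : ℝ) :=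
    single_le_sum (f := fun k => 2 * (T.H k : ℝ)) (fun k _ => by linarith [T.H_pos k])
      (mem_univ k)
  rw [Real.norm_eq_abs, abs_of_nonneg (T.feas_nonneg z hz _)]
  cases bb <;> linarith

/-- reduced costs measure the objective -/
lemma obj_eq {r : Fin N → ℝ} {π : Fin m → ℝ} (h : ∀ j, r j = T.C j - ∑ i, π i * T.A i j)
    {z : Fin N → ℝ} (hz : z ∈ feas T.A T.b) :
    obj T.C z = ∑ i, π i * T.b i + ∑ j, r j * z j := by
  have e : ∑ i, π i * (T.b i : ℝ) = ∑ j, (∑ i, π i * T.A i j) * z j := by
    simp only [sum_mul]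
    rw [sum_comm]
    refine sum_congr rfl fun i _ => ?_
    rw [← hz.1 i, mul_sum]
    exact sum_congr rfl fun j _ => by ring
  rw [e, ← sum_add_distrib]
  unfold obj
  exact sum_congr rfl fun j _ => by rw [h j]; ring

lemma obj_flip (β : ι → Bool) (i : ι) {r : Fin N → ℝ} (hr : IsRedCost T.A T.C (T.V β) r) :
    obj T.C (T.V (flip β i)) - obj T.C (T.V β) =
      r (T.col (i, β i)) * T.V (flip β i) (T.col (i, β i)) := by
  obtain ⟨⟨π, hπ⟩, h0⟩ := hr
  rw [T.obj_eq hπ (T.V_mem _), T.obj_eq hπ (T.V_mem _)]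
  have e1 : ∑ j, r j * T.V β j = 0 := by
    refine sum_eq_zero fun j _ => ?_
    by_cases h : T.V β j = 0
    · rw [h, mul_zero]
    · rw [h0 j h, zero_mul]
  have e2 : ∑ j, r j * T.V (flip β i) j =
      r (T.col (i, β i)) * T.V (flip β i) (T.col (i, β i)) := by
    apply sum_eq_single
    · intro j _ hj
      rcases T.col_cases β j with ⟨k, rfl⟩ | ⟨k, rfl⟩
      · have hk : k ≠ i := by
          rintro rfl
          exact hj rfl
        rw [T.Vf_zero' β hk, mul_zero]
      · rw [h0 _ (T.V_pos β k).ne', zero_mul]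
    · intro h
      exact absurd (mem_univ _) h
  rw [e1, e2]
  ring

lemma redCost_unique (β : ι → Bool) {r r' : Fin N → ℝ} (hr : IsRedCost T.A T.C (T.V β) r)
    (hr' : IsRedCost T.A T.C (T.V β) r') : r = r' := by
  funext j
  rcases T.col_cases β j with ⟨k, rfl⟩ | ⟨k, rfl⟩
  · have h1 := T.obj_flip β k hr
    have h2 := T.obj_flip β k hr'
    exact mul_right_cancel₀ (T.Vf_pos β k).ne' (h1.symm.trans h2)
  · rw [hr.2 _ (T.V_pos β k).ne', hr'.2 _ (T.V_pos β k).ne']

/-- the reduced costs given by a solution of the dual recursion -/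
noncomputable def rc (β : ι → Bool) (y : ι → ℝ) : Fin N → ℝ := fun j =>
  if (T.col.symm j).2 = β (T.col.symm j).1 then
    (if β (T.col.symm j).1 then -y (T.col.symm j).1 else y (T.col.symm j).1) else 0

lemma rc_nonbasic (β : ι → Bool) (y : ι → ℝ) (i : ι) :
    T.rc β y (T.col (i, β i)) = if β i then -y i else y i := by
  simp [rc]

lemma rc_basic (β : ι → Bool) (y : ι → ℝ) (i : ι) : T.rc β y (T.col (i, !β i)) = 0 := by
  simp [rc]

lemma isRedCost_rc (β : ι → Bool) (y : ι → ℝ)
    (hy : ∀ i, y i = T.c i + ∑ k, (T.a k i : ℝ) * (if β k then y k else 0)) :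
    IsRedCost T.A T.C (T.V β) (T.rc β y) := by
  constructor
  · refine ⟨fun r => if β (T.row.symm r) then y (T.row.symm r) else 0, fun j => ?_⟩
    rw [← T.row.sum_comp]
    obtain ⟨⟨i, bb⟩, rfl⟩ := T.col.surjective j
    cases bb
    · simp only [Equiv.symm_apply_apply, A_false, mul_sub, sum_sub_distrib, mul_ite, mul_one,
        mul_zero, sum_ite_eq, mem_univ, if_true]
      have e : ∑ k, (if β k then y k else 0) * (T.a k i : ℝ) =
          ∑ k, (T.a k i : ℝ) * (if β k then y k else 0) := sum_congr rfl fun k _ => mul_comm _ _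
      have hC : (T.C (T.col (i, false)) : ℝ) = T.c i := by simp [C]
      rw [e, hC]
      have h1 := hy i
      cases hb : β i
      · have := T.rc_nonbasic β y i
        rw [hb] at this
        rw [this]
        simp only [Bool.false_eq_true, if_false]
        linarith
      · have := T.rc_basic β y i
        rw [hb] at this
        simp only [Bool.not_true] at this
        rw [this]
        simp only [if_true]
        linarith
    · simp only [Equiv.symm_apply_apply, A_true, mul_ite, mul_one,
        mul_zero, sum_ite_eq, mem_univ, if_true]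
      have hC : (T.C (T.col (i, true)) : ℝ) = 0 := by simp [C]
      rw [hC]
      cases hb : β i
      · have := T.rc_basic β y i
        rw [hb] at this
        simp only [Bool.not_false] at this
        rw [this]
        simp
      · have := T.rc_nonbasic β y i
        rw [hb] at this
        rw [this]
        simp
  · intro j hj
    rcases T.col_cases β j with ⟨k, rfl⟩ | ⟨k, rfl⟩
    · exact absurd (T.V_zero β k) hj
    · exact T.rc_basic β y k

lemma abs_A_le (r : Fin m) (j : Fin N) : |T.A r j| ≤ 2 := by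
  obtain ⟨k, rfl⟩ := T.row.surjective r
  obtain ⟨⟨i, bb⟩, rfl⟩ := T.col.surjective j
  unfold A
  simp only [Equiv.symm_apply_apply]
  by_cases h : i = k
  · subst h
    cases bb <;> simp [T.hd]
  · cases bb
    · simpa [h] using T.hb k i
    · simp [h]

end Tri

end Pool.Agent.H307Z.Piv
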