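import Pool.Agent.H307Z.Piv.Constr
set_option autoImplicit false

/-!
# The exponential run
-/

namespace Pool.Agent.H307Z.Piv

open Finset Sum

lemma low_bit (t E : ℕ) (h1 : 2 ^ t < E) (h2 : E < 2 ^ (t + 1)) :
    ∃ z < t, E.testBit z = true ∧ (∀ j < z, E.testBit j = false) ∧
      (∀ j ≤ z, (E - 1).testBit j = !E.testBit j) ∧
      ∀ j, z < j → (E - 1).testBit j = E.testBit j := by
  obtain ⟨z, o, ⟨m, rfl⟩, hE⟩ := Nat.exists_eq_two_pow_mul_odd (n := E) (by omega)
  have hp : 0 < 2 ^ z := Nat.two_pow_pos z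
  have e1 : E = 2 ^ (z + 1) * m + 2 ^ z := by rw [hE]; ring
  have e2 : E - 1 = 2 ^ (z + 1) * m + (2 ^ z - 1) := by omega
  have l1 : 2 ^ z < 2 ^ (z + 1) := by rw [pow_succ]; omega
  have l2 : 2 ^ z - 1 < 2 ^ (z + 1) := by omega
  have b1 : ∀ j, E.testBit j = if j < z + 1 then decide (z = j) else m.testBit (j - (z + 1)) := by
    intro j
    rw [e1, Nat.testBit_two_pow_mul_add _ l1, Nat.testBit_two_pow]
  have b2 : ∀ j, (E - 1).testBit j =
      if j < z + 1 then decide (j < z) else m.testBit (j - (z + 1)) := by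
    intro j
    rw [e2, Nat.testBit_two_pow_mul_add _ l2, Nat.testBit_two_pow_sub_one]
  have hz : z < t := by
    by_contra hc
    push Not at hc
    rcases hc.lt_or_eq with h | h
    · have : 2 ^ (t + 1) ≤ 2 ^ z := Nat.pow_le_pow_right (by norm_num) h
      omega
    · subst h
      rcases Nat.eq_zero_or_pos m with h0 | h0
      · rw [h0] at e1; omega
      · have : 2 ^ (t + 1) * 1 ≤ 2 ^ (t + 1) * m := Nat.mul_le_mul_left _ h0
        omega
  refine ⟨z, hz, ?_, ?_, ?_, ?_⟩
  · rw [b1]; simp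
  · intro j hj
    rw [b1, if_pos (by omega)]
    simp only [decide_eq_false_iff_not]
    omega
  · intro j hj
    rw [b1, b2, if_pos (by omega), if_pos (by omega)]
    rcases hj.lt_or_eq with h | h
    · simp [h, h.ne']
    · simp [h]
  · intro j hj
    rw [b1, b2, if_neg (by omega), if_neg (by omega)]

theorem main (n M t : ℕ) (hn : 5 * M + 6 * t ≤ n) (R : Rule M) :
    ∃ (A : Matrix (Fin n) (Fin (2 * n)) ℤ) (b : Fin n → ℤ) (c : Fin (2 * n) → ℤ),
      (∀ i j, |A i j| ≤ 2) ∧ (∀ j, |c j| ≤ 1) ∧ (∀ i, |b i| ≤ (4 * n + 1) ^ (t + 1)) ∧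
      Bornology.IsBounded (feas A b) ∧
      LinearIndependent ℝ (fun i j => (A i j : ℝ)) ∧
      (∀ v ∈ (feas A b).extremePoints ℝ, (univ.filter fun j => v j ≠ 0).card = n) ∧
      ∃ (v : ℕ → Fin (2 * n) → ℝ) (s : ℕ → Fin M),
        v 0 ∈ (feas A b).extremePoints ℝ ∧ s 0 = R.init ∧
        ∀ l, l + 1 < 2 ^ t →
          Step R A b c (v l) (s l) (v (l + 1)) (s (l + 1)) ∧
          obj c (v l) < obj c (v (l + 1)) ∧
          ∀ w s', Step R A b c (v l) (s l) w s' → w = v (l + 1) ∧ s' = s (l + 1) := by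
  classical
  have hM : 0 < M := R.init.pos
  set k : ℕ := 2 * (M + t) with hk
  set ones : List ℝ := List.replicate k 1 with hones
  set st : ℕ → Fin M := fun σ => (fun s => R.next s ones)^[σ] R.init with hst
  have hst1 : ∀ σ, st (σ + 1) = R.next (st σ) ones := fun σ => by
    simp only [hst, Function.iterate_succ_apply']
  obtain ⟨μ, ν, hμν, hν, heq⟩ : ∃ μ ν, μ < ν ∧ ν ≤ M ∧ st μ = st ν := by
    obtain ⟨x, y, hxy, h⟩ := Fintype.exists_ne_map_eq_of_card_lt
      (fun x : Fin (M + 1) => st x) (by simp)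
    have hx := x.2
    have hy := y.2
    rcases lt_or_gt_of_ne (fun h => hxy (Fin.ext h) : x.val ≠ y.val) with h1 | h1
    · exact ⟨x, y, h1, by omega, h⟩
    · exact ⟨y, x, h1, by omega, h.symm⟩
  set p : Par :=
    { k := k, r := n - (2 * k + (ν - 1) + 2 * t), T := ν - 1, t := t, μ := μ,
      ρ := fun σ => R.pick (st σ) ones
      hμ := by omega
      hk := by omega
      hρ := fun σ => by
        have := R.pick_lt (st σ) ones (by
          rw [hones]
          intro h
          rw [List.replicate_eq_nil_iff] at h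
          omega)
        rwa [hones, List.length_replicate] at this } with hp
  have hT : p.T + 1 = ν := by show ν - 1 + 1 = ν; omega
  have hcard : Fintype.card p.Idx = n := by
    simp only [Fintype.card_sum, Fintype.card_fin]
    show k + (k + (n - (2 * k + (ν - 1) + 2 * t))) + (t + (ν - 1 + t)) = n
    omega
  obtain ⟨row, col, hcol⟩ := exists_row_col hcard p.key p.key_inj
  set Tr : Tri p.Idx n (2 * n) :=
    { row := row, col := col, a := p.a, lvl := p.lvl, c := p.c, ha := p.ha, hb := p.hb,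
      hd := p.hd } with hTr
  set nxt : ℕ × ℕ → ℕ × ℕ := fun x => if x.2 < p.T then (x.1, x.2 + 1) else (x.1 - 1, p.μ)
    with hnxt
  set cfg : ℕ → ℕ × ℕ := fun l => nxt^[l] (2 ^ (t + 1) - 1, 0) with hcfg
  have hcfg1 : ∀ l, cfg (l + 1) = nxt (cfg l) := fun l => by
    simp only [hcfg, Function.iterate_succ_apply']
  have hpos : 0 < 2 ^ t := Nat.two_pow_pos t
  have hpow : 2 ^ (t + 1) = 2 * 2 ^ t := by ring
  have hinv : ∀ l, (cfg l).2 ≤ p.T ∧ (cfg l).1 < 2 ^ (t + 1) ∧
      2 ^ (t + 1) ≤ (cfg l).1 + l + 1 := by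
    intro l
    induction l with
    | zero =>
      have : cfg 0 = (2 ^ (t + 1) - 1, 0) := rfl
      rw [this]
      simp only
      omega
    | succ l ih =>
      rw [hcfg1, hnxt]
      have := p.hμ
      simp only
      split_ifs <;> simp only <;> omega
  refine ⟨Tr.A, Tr.b, Tr.C, Tr.abs_A_le, ?_, ?_, Tr.bounded, Tr.rows_indep, ?_,
    fun l => Tr.V (p.β (cfg l).1.testBit (cfg l).2), fun l => st (cfg l).2,
    Tr.V_extreme _, rfl, ?_⟩
  · intro j
    unfold Tri.C
    split_ifs
    · simp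
    · exact p.abs_c _
  · intro i
    unfold Tri.b Tri.H
    rw [hcard, abs_of_nonneg (by positivity)]
    apply pow_le_pow_right₀ (by omega)
    show p.lvl _ ≤ t + 1
    rcases Tr.row.symm i with j | j | j | j <;> simp only [Par.lvl]
    · omega
    · omega
    · omega
    · have : j.val < t := j.2
      omega
  · intro v hv
    obtain ⟨β, rfl⟩ := Tr.extreme_eq hv
    rw [Tr.card_support, hcard]
  · intro l hl
    obtain ⟨i1, i2, i3⟩ := hinv l
    have hE : 2 ^ t < (cfg l).1 := by omega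
    have het : (cfg l).1.testBit p.t = true :=
      Nat.testBit_of_two_pow_le_and_two_pow_add_one_gt hE.le i2
    have hstep := fun z hz hρ => Tr.step R p.key p.key_inj hcol _ _
      (p.hy _ het _ i1) _ (p.himp (cfg l).1.testBit (cfg l).2) k (p.card_imp _ _ i1)
      (st (cfg l).2) z hz hρ
    simp only
    by_cases hσ : (cfg l).2 < p.T
    · have h1 := hstep (inr (inr (inl ⟨(cfg l).2, hσ⟩))) (by simp [Par.imp])
        (p.rank_sw _ ⟨(cfg l).2, hσ⟩)
      have h2 := p.flip_sw (cfg l).1.testBit ⟨(cfg l).2, hσ⟩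
      simp only at h2
      rw [h2, ← hst1] at h1
      have h3 : cfg (l + 1) = ((cfg l).1, (cfg l).2 + 1) := by
        rw [hcfg1, hnxt]
        simp only [hσ, if_true]
      rw [h3]
      exact h1
    · have hσ' : (cfg l).2 = p.T := by omega
      obtain ⟨z, hz, z1, z2, z3, z4⟩ := low_bit t _ hE i2
      have h0 := p.rank_hi (cfg l).1.testBit ⟨z, hz⟩ z1 z2
      have h2 := p.flip_hi (cfg l).1.testBit ((cfg l).1 - 1).testBit ⟨z, hz⟩ z3 z4
      rw [hσ'] at hstep ⊢
      have h1 := hstep (inr (inr (inr ⟨z, hz⟩))) z1 h0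
      rw [h2, ← hst1, hT, ← heq] at h1
      have h3 : cfg (l + 1) = ((cfg l).1 - 1, μ) := by
        rw [hcfg1, hnxt]
        simp only [hσ, if_false]
        rfl
      rw [h3]
      exact h1

end Pool.Agent.H307Z.Piv
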