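import Pool.Agent.H307Z.Piv.Edge
set_option autoImplicit false
set_option linter.unusedSectionVars false

/-!
# One step of a rank rule on a triangular cube
-/

namespace Pool.Agent.H307Z.Piv

open Finset

lemma rank_inj {N : ℕ} (S : Finset (Fin N)) {j j' : Fin N} (hj : j ∈ S) (hj' : j' ∈ S)
    (h : (S.filter (· < j)).card = (S.filter (· < j')).card) : j = j' := by
  have key : ∀ a b : Fin N, a ∈ S → a < b →
      (S.filter (· < a)).card < (S.filter (· < b)).card := by
    intro a b ha hab
    apply card_lt_card
    rw [ssubset_iff_of_subset]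
    · exact ⟨a, mem_filter.2 ⟨ha, hab⟩, fun h => lt_irrefl a (mem_filter.1 h).2⟩
    · intro x hx
      exact mem_filter.2 ⟨(mem_filter.1 hx).1, lt_trans (mem_filter.1 hx).2 hab⟩
  rcases lt_trichotomy j j' with h1 | h1 | h1
  · have := key _ _ hj h1; omega
  · exact h1
  · have := key _ _ hj' h1; omega

namespace Tri

variable {ι : Type} [Fintype ι] [DecidableEq ι] {m N M : ℕ} (T : Tri ι m N)

theorem step (R : Rule M) (key : ι → ℕ) (hinj : Function.Injective key)
    (hcol : ∀ i i' b b', key i < key i' → T.col (i, b) < T.col (i', b'))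
    (β : ι → Bool) (y : ι → ℝ)
    (hy : ∀ i, y i = T.c i + ∑ k, (T.a k i : ℝ) * (if β k then y k else 0))
    (imp : ι → Bool) (himp : ∀ i, (if β i then -y i else y i) = if imp i then 1 else -1)
    (k : ℕ) (hk : (univ.filter fun i => imp i = true).card = k) (s : Fin M) (z : ι)
    (hz : imp z = true)
    (hρ : (univ.filter fun i => imp i = true ∧ key i < key z).card =
      R.pick s (List.replicate k 1)) :
    Step R T.A T.b T.C (T.V β) s (T.V (flip β z)) (R.next s (List.replicate k 1)) ∧
      obj T.C (T.V β) < obj T.C (T.V (flip β z)) ∧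
      ∀ w s', Step R T.A T.b T.C (T.V β) s w s' →
        w = T.V (flip β z) ∧ s' = R.next s (List.replicate k 1) := by
  set r := T.rc β y with hr
  have hrc : IsRedCost T.A T.C (T.V β) r := T.isRedCost_rc β y hy
  have hval : ∀ i, r (T.col (i, β i)) = if imp i then 1 else -1 := fun i => by
    rw [hr, T.rc_nonbasic, himp]
  have hinjc : Function.Injective fun i => T.col (i, β i) := by
    intro i i' h
    exact (Prod.ext_iff.1 (T.col.injective h)).1
  have himpr : impr r = (univ.filter fun i => imp i = true).image fun i => T.col (i, β i) := by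
    ext j
    simp only [impr, mem_filter, mem_univ, true_and, mem_image]
    constructor
    · intro h
      rcases T.col_cases β j with ⟨i, rfl⟩ | ⟨i, rfl⟩
      · refine ⟨i, ?_, rfl⟩
        rw [hval] at h
        by_contra hn
        rw [if_neg hn] at h
        linarith
      · rw [hr, T.rc_basic] at h
        exact absurd h (lt_irrefl _)
    · rintro ⟨i, hi, rfl⟩
      rw [hval, if_pos hi]
      exact one_pos
  have hview : view r = List.replicate k 1 := by
    rw [List.eq_replicate_iff]
    constructor
    · rw [view, List.length_map, length_sort, himpr, card_image_of_injective _ hinjc, hk]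
    · intro x hx
      rw [view, List.mem_map] at hx
      obtain ⟨j, hj, rfl⟩ := hx
      rw [mem_sort, himpr, mem_image] at hj
      obtain ⟨i, hi, rfl⟩ := hj
      rw [hval, if_pos (mem_filter.1 hi).2]
  have hzm : T.col (z, β z) ∈ impr r := by
    rw [himpr]
    exact mem_image.2 ⟨z, mem_filter.2 ⟨mem_univ _, hz⟩, rfl⟩
  have hcount : ((impr r).filter (· < T.col (z, β z))).card = R.pick s (view r) := by
    rw [hview, ← hρ, himpr, filter_image, card_image_of_injective _ hinjc, filter_filter]
    congr 1
    apply filter_congr
    intro i _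
    refine and_congr_right fun _ => ?_
    constructor
    · intro h
      rcases lt_trichotomy (key i) (key z) with h1 | h1 | h1
      · exact h1
      · rw [hinj h1] at h
        exact absurd h (lt_irrefl _)
      · exact absurd (hcol z i (β z) (β i) h1) (not_lt.2 h.le)
    · exact hcol i z _ _
  refine ⟨⟨r, hrc, T.col (z, β z), hzm, hcount, T.isEdge_V β z, T.Vf_pos β z, by rw [hview]⟩,
    ?_, ?_⟩
  · have h1 := T.obj_flip β z hrc
    rw [hval, if_pos hz] at h1
    have := T.Vf_pos β z
    linarith
  · rintro w s' ⟨r', hr', j, hj, hc, he, hw, hs'⟩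
    obtain rfl := T.redCost_unique β hrc hr'
    have : j = T.col (z, β z) := rank_inj _ hj hzm (hc.trans hcount.symm)
    subst this
    exact ⟨T.edge_eq β z he hw, by rw [hs', hview]⟩

end Tri

/-- rows and columns in the order of a key -/
lemma exists_row_col {ι : Type} [Fintype ι] {n : ℕ} (hn : Fintype.card ι = n) (key : ι → ℕ)
    (hinj : Function.Injective key) :
    ∃ (_ : ι ≃ Fin n) (col : ι × Bool ≃ Fin (2 * n)),
      ∀ i i' b b', key i < key i' → col (i, b) < col (i', b') := by
  classical
  set key2 : ι × Bool → ℕ := fun p => 2 * key p.1 + p.2.toNat with hkey2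
  have hinj2 : Function.Injective key2 := by
    rintro ⟨i, b⟩ ⟨i', b'⟩ h
    simp only [hkey2] at h
    have h1 : key i = key i' := by
      cases b <;> cases b' <;> simp at h <;> omega
    have h2 : b = b' := by
      cases b <;> cases b' <;> simp at h ⊢ <;> omega
    rw [hinj h1, h2]
  letI : LinearOrder (ι × Bool) := LinearOrder.lift' key2 hinj2
  have hc : Fintype.card (ι × Bool) = 2 * n := by
    rw [Fintype.card_prod, Fintype.card_bool, hn, mul_comm]
  let e := Fintype.orderIsoFinOfCardEq (ι × Bool) hc
  refine ⟨Fintype.equivFinOfCardEq hn, e.symm.toEquiv, fun i i' b b' h => ?_⟩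
  have : (i, b) < (i', b') := by
    show key2 (i, b) < key2 (i', b')
    simp only [hkey2]
    cases b <;> cases b' <;> simp <;> omega
  exact e.symm.strictMono this

end Pool.Agent.H307Z.Piv
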